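import Pool.Agent.MWT.Stmts

/-!
# Row KPJ of the table mwt (the classes of the projections)
-/

set_option autoImplicit false

namespace Pool.Agent.MWT.H1

open Pool.Agent.Helper14_MV Pool.Agent.Helper2_MV Pool.Agent.MVD Pool.Agent.MWT

theorem kpj_dl {g : ℕ → List ℕ} {e : ℕ} (h : g e = []) (w : List ℕ) :
    (dl e w).flatMap g = w.flatMap g := by
  induction w with
  | nil => rfl
  | cons a w ih =>
    unfold dl at ih ⊢
    rw [List.filter_cons, List.flatMap_cons]
    by_cases ha : a = e
    · rw [if_neg (by simp [ha]), ih, ha, h]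
      rfl
    · rw [if_pos (by simp [ha]), List.flatMap_cons, ih]

theorem kpj_sh {g : ℕ → List ℕ} {e n : ℕ} (h : g e = []) (he : e < 42) (w : List ℕ) :
    (sh n (dl e w)).flatMap g = (sh n w).flatMap g := by
  unfold sh
  rw [List.flatMap_assoc, List.flatMap_assoc]
  apply kpj_dl
  rw [if_neg (by omega)]
  simp [h]

theorem kpj : KpjStmt := by
  intro n β R c w
  constructor
  · intro hk e he κ
    have h0 : pj e 1 κ 0 = [] := by
      unfold pj
      rw [if_pos (by omega), if_pos (by omega), if_neg (by omega), if_neg (by omega)]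
    have h1 := RR.sub (pj e 1 κ) hk
    rw [kpj_dl h0, kpj_sh h0 (by omega)] at h1
    exact h1
  · intro hk e he κ
    have h0 : pj e 1 κ 6 = [] := by
      unfold pj
      rw [if_pos (by omega), if_pos (by omega), if_neg (by omega), if_neg (by omega)]
    have h1 := RR.sub (pj e 1 κ) hk
    rw [kpj_dl h0, kpj_sh h0 (by omega)] at h1
    exact h1

end Pool.Agent.MWT.H1
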